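import Mathlib
import Pool.Agent.MP_120e55_lc.Main

namespace Pool.Agent.Results.MP_120e55_lc.Counterexample

open Pool.Agent.MP_120e55_lc

/-- The negated form of Q1: a lightface analytic set relative to `y` with a member whose
Church-Kleene ordinal exceeds that of `y`, and a real that is hyperarithmetic in no join of four
members of the set. -/
theorem result : ∃ (y : ℕ → Bool) (A : Set (ℕ → Bool)) (γ : ℕ → Bool),
    Sigma11Reals y A ∧ (∃ x ∈ A, omegaCK y < omegaCK x) ∧
      ∀ x₀ ∈ A, ∀ x₁ ∈ A, ∀ x₂ ∈ A, ∀ x₃ ∈ A, ¬ HypIn γ (join4 x₀ x₁ x₂ x₃) :=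
  counterexample

end Pool.Agent.Results.MP_120e55_lc.Counterexample
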